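import Pool.Agent.E8helper71.CP.Y706.BI.Stm

set_option autoImplicit false

/-!
# Project BI, the statement COV: points with large expansion are close to roots
-/

namespace Pool.Agent.E8helper71.CP.Y405.BI

open Pool.Agent.TH951.W.UB Pool.Agent.TH951.W.UG Pool.Agent.TH951.W.UH Finset Pool.Agent.E8helper71.CP.Y706.BI

universe u

section Basic

variable {Ω : Type u} [NormedField Ω] [IsUltrametricDist Ω]

lemma norm_add_le_max' (a b : Ω) : ‖a + b‖ ≤ max ‖a‖ ‖b‖ := by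
  exact IsUltrametricDist.norm_add_le_max a b

lemma norm_sub_le_max' (a b : Ω) : ‖a - b‖ ≤ max ‖a‖ ‖b‖ := by
  have h1 := norm_add_le_max' a (-b)
  rwa [norm_neg, ← sub_eq_add_neg] at h1

lemma norm_eq_of_sub_lt {a b : Ω} (h : ‖a - b‖ < ‖b‖) : ‖a‖ = ‖b‖ := by
  apply le_antisymm
  · have h1 := norm_add_le_max' (a - b) b
    rw [sub_add_cancel] at h1
    exact h1.trans (max_le h.le le_rfl)
  · have h1 := norm_sub_le_max' a (a - b)
    rw [sub_sub_cancel] at h1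
    rcases le_max_iff.mp h1 with h2 | h2
    · exact h2
    · exact absurd h2 (not_le.mpr h)

lemma norm_eq_of_sub_lt₂ {a b : Ω × Ω} (h : ‖a - b‖ < ‖b‖) : ‖a‖ = ‖b‖ := by
  apply le_antisymm
  · have h1 := norm_sub_le_max (a - b) (-b)
    rw [sub_neg_eq_add, sub_add_cancel, norm_neg] at h1
    exact h1.trans (max_le h.le le_rfl)
  · have h1 := norm_sub_le_max a (a - b)
    rw [sub_sub_cancel] at h1
    rcases le_max_iff.mp h1 with h2 | h2
    · exact h2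
    · exact absurd h2 (not_le.mpr h)

lemma pow_sub_one_le {v : Ω} (h : ‖v - 1‖ < 1) (i : ℕ) : ‖v ^ i - 1‖ ≤ ‖v - 1‖ := by
  have hv : ‖v‖ = 1 := by
    have := norm_eq_of_sub_lt (a := v) (b := 1) (by rwa [norm_one])
    rw [this, norm_one]
  induction i with
  | zero => rw [pow_zero, sub_self, norm_zero]; exact norm_nonneg _
  | succ i ih =>
    have h1 : v ^ (i + 1) - 1 = v * (v ^ i - 1) + (v - 1) := by ring
    rw [h1]
    refine (norm_add_le_max' _ _).trans (max_le ?_ le_rfl)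
    rw [norm_mul, hv, one_mul]
    exact ih

lemma norm_pow_sub_one {v : Ω} (h : ‖v - 1‖ < 1) (d : ℕ) (hd : ‖(d : Ω)‖ = 1) :
    ‖v ^ d - 1‖ = ‖v - 1‖ := by
  rw [← geom_sum_mul, norm_mul]
  have h1 : ‖∑ i ∈ range d, v ^ i‖ = ‖(d : Ω)‖ := by
    apply norm_eq_of_sub_lt
    have h2 : ∑ i ∈ range d, v ^ i - (d : Ω) = ∑ i ∈ range d, (v ^ i - 1) := by
      rw [sum_sub_distrib, sum_const, card_range, nsmul_one]
    rw [h2, hd]
    refine lt_of_le_of_lt ?_ h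
    exact IsUltrametricDist.norm_sum_le_of_forall_le_of_nonneg (norm_nonneg _)
      (fun i _ => pow_sub_one_le h i)
  rw [h1, hd, one_mul]

lemma norm_pow_sub_pow {a b : Ω} (h : ‖a - b‖ < ‖b‖) (d : ℕ) (hd1 : 1 ≤ d)
    (hd : ‖(d : Ω)‖ = 1) : ‖a ^ d - b ^ d‖ = ‖a - b‖ * ‖b‖ ^ (d - 1) := by
  have hb : b ≠ 0 := by
    rintro rfl
    rw [norm_zero] at h
    exact absurd h (not_lt.mpr (norm_nonneg _))
  have hb' : 0 < ‖b‖ := norm_pos_iff.mpr hb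
  have h1 : ‖a / b - 1‖ < 1 := by
    have h2 : a / b - 1 = (a - b) / b := by field_simp
    rw [h2, norm_div, div_lt_one hb']
    exact h
  have h3 := norm_pow_sub_one h1 d hd
  have h4 : a ^ d - b ^ d = b ^ d * ((a / b) ^ d - 1) := by
    rw [div_pow]
    field_simp
  have h5 : a - b = b * (a / b - 1) := by field_simp
  rw [h4, norm_mul, h3, norm_pow]
  conv_rhs => rw [h5, norm_mul]
  obtain ⟨e, rfl⟩ : ∃ e, d = e + 1 := ⟨d - 1, by omega⟩
  rw [Nat.add_sub_cancel, pow_succ]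
  ring

/-- crude version for the size of `F X' - F X` -/
lemma norm_pow_sub_pow_le {a b : Ω} (ha : ‖a‖ ≤ 1) (hb : ‖b‖ ≤ 1) (d : ℕ) :
    ‖a ^ d - b ^ d‖ ≤ ‖a - b‖ := by
  induction d with
  | zero => rw [pow_zero, pow_zero, sub_self, norm_zero]; exact norm_nonneg _
  | succ d ih =>
    have h1 : a ^ (d + 1) - b ^ (d + 1) = a * (a ^ d - b ^ d) + b ^ d * (a - b) := by ring
    rw [h1]
    refine (norm_add_le_max' _ _).trans (max_le ?_ ?_)
    · rw [norm_mul]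
      exact (mul_le_of_le_one_left (norm_nonneg _) ha).trans ih
    · rw [norm_mul, norm_pow]
      exact mul_le_of_le_one_left (norm_nonneg _) (pow_le_one₀ (norm_nonneg _) hb)

lemma prod_close {ι : Type} (s : Finset ι) (a b : ι → Ω) (r : ℝ) (hr0 : 0 ≤ r) (hr : r ≤ 1)
    (h : ∀ i ∈ s, ‖a i - b i‖ ≤ r * ‖b i‖) :
    ‖∏ i ∈ s, a i - ∏ i ∈ s, b i‖ ≤ r * ‖∏ i ∈ s, b i‖ := by
  classical
  induction s using Finset.induction_on with
  | empty => rw [prod_empty, prod_empty, sub_self, norm_zero, norm_one, mul_one]; exact hr0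
  | insert j s hj ih =>
    have ih' := ih (fun i hi => h i (mem_insert_of_mem hi))
    have hA : ‖∏ i ∈ s, a i‖ ≤ ‖∏ i ∈ s, b i‖ := by
      have h1 := norm_add_le_max' (∏ i ∈ s, a i - ∏ i ∈ s, b i) (∏ i ∈ s, b i)
      rw [sub_add_cancel] at h1
      refine h1.trans (max_le (ih'.trans ?_) le_rfl)
      exact mul_le_of_le_one_left (norm_nonneg _) hr
    rw [prod_insert hj, prod_insert hj]
    have h2 : a j * ∏ i ∈ s, a i - b j * ∏ i ∈ s, b i =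
        (a j - b j) * ∏ i ∈ s, a i + b j * (∏ i ∈ s, a i - ∏ i ∈ s, b i) := by ring
    rw [h2]
    have hj' := h j (mem_insert_self _ _)
    refine (norm_add_le_max' _ _).trans (max_le ?_ ?_)
    · rw [norm_mul, norm_mul, ← mul_assoc]
      exact mul_le_mul hj' hA (norm_nonneg _) (by positivity)
    · rw [norm_mul, norm_mul]
      calc ‖b j‖ * ‖∏ i ∈ s, a i - ∏ i ∈ s, b i‖ ≤ ‖b j‖ * (r * ‖∏ i ∈ s, b i‖) :=
            mul_le_mul_of_nonneg_left ih' (norm_nonneg _)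
        _ = r * (‖b j‖ * ‖∏ i ∈ s, b i‖) := by ring

/-- Schwarz lemma -/
lemma schwarz (S : HS Ω) {b₁ b₂ : Ω × Ω} (hb₁ : ‖b₁‖ = 1) (hb₂ : ‖b₂‖ = 1)
    (hb : ‖wd b₁ b₂‖ = 1) {c₁ c₂ : Ω} {η₁ η₂ : Fin S.d → Ω × Ω} (h₁ : S.IsRS b₁ c₁ η₁)
    (h₂ : S.IsRS b₂ c₂ η₂) (X Z : Ω × Ω) (hZ : ‖Z‖ = 1) (μ : Ω) (s : ℝ)
    (hμ : ‖μ‖ * Real.exp s < 1) (hη₁ : ∀ l, Real.exp (-s) < ‖wd X (η₁ l)‖)
    (hη₂ : ∀ l, Real.exp (-s) < ‖wd X (η₂ l)‖) :
    ‖wd (S.F (X + μ • Z)) (S.F X)‖ ≤ ‖S.F X‖ ^ 2 * (‖μ‖ * Real.exp s) ∧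
      ‖S.F X‖ ≤ ‖S.F (X + μ • Z)‖ := by
  set r := ‖μ‖ * Real.exp s with hr
  have hr0 : 0 ≤ r := by positivity
  have key : ∀ (b : Ω × Ω) (c : Ω) (η : Fin S.d → Ω × Ω), S.IsRS b c η →
      (∀ l, Real.exp (-s) < ‖wd X (η l)‖) →
      ‖wd (S.F (X + μ • Z)) b - wd (S.F X) b‖ ≤ r * ‖wd (S.F X) b‖ := by
    intro b c η h hη
    rw [h.2.2.1, h.2.2.1, ← mul_sub, norm_mul, norm_mul]
    have h3 := prod_close univ (fun l => wd (X + μ • Z) (η l)) (fun l => wd X (η l)) r hr0 hμ.le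
      (fun l _ => by
        have h4 : wd (X + μ • Z) (η l) - wd X (η l) = μ * wd Z (η l) := by
          rw [wd_add_left, wd_smul_left]
          ring
        rw [h4, norm_mul]
        have h5 : ‖wd Z (η l)‖ ≤ 1 := by
          have := norm_wd_le Z (η l)
          rwa [hZ, h.2.1 l, one_mul] at this
        have h6 : ‖μ‖ = r * Real.exp (-s) := by
          rw [hr, mul_assoc, ← Real.exp_add, add_neg_cancel, Real.exp_zero, mul_one]
        calc ‖μ‖ * ‖wd Z (η l)‖ ≤ ‖μ‖ * 1 := mul_le_mul_of_nonneg_left h5 (norm_nonneg _)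
          _ = r * Real.exp (-s) := by rw [mul_one, h6]
          _ ≤ r * ‖wd X (η l)‖ := mul_le_mul_of_nonneg_left (hη l).le hr0)
    calc ‖c‖ * ‖∏ l, wd (X + μ • Z) (η l) - ∏ l, wd X (η l)‖
        ≤ ‖c‖ * (r * ‖∏ l, wd X (η l)‖) := mul_le_mul_of_nonneg_left h3 (norm_nonneg _)
      _ = r * (‖c‖ * ‖∏ l, wd X (η l)‖) := by ring
  have k₁ := key b₁ c₁ η₁ h₁ hη₁
  have k₂ := key b₂ c₂ η₂ h₂ hη₂
  set A' := S.F (X + μ • Z)
  set A := S.F X
  have a₁ : ‖wd A b₁‖ ≤ ‖A‖ := by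
    have := norm_wd_le A b₁
    rwa [hb₁, mul_one] at this
  have a₂ : ‖wd A b₂‖ ≤ ‖A‖ := by
    have := norm_wd_le A b₂
    rwa [hb₂, mul_one] at this
  constructor
  · have e1 : wd b₁ b₂ * wd A' A = (wd A' b₁ - wd A b₁) * wd A b₂ -
        (wd A' b₂ - wd A b₂) * wd A b₁ := by
      unfold wd
      ring
    have e2 : ‖wd A' A‖ = ‖(wd A' b₁ - wd A b₁) * wd A b₂ - (wd A' b₂ - wd A b₂) * wd A b₁‖ := by
      rw [← e1, norm_mul, hb, one_mul]
    rw [e2]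
    refine (norm_sub_le_max' _ _).trans (max_le ?_ ?_)
    · rw [norm_mul]
      calc ‖wd A' b₁ - wd A b₁‖ * ‖wd A b₂‖ ≤ (r * ‖A‖) * ‖A‖ :=
            mul_le_mul (k₁.trans (mul_le_mul_of_nonneg_left a₁ hr0)) a₂ (norm_nonneg _)
              (by positivity)
        _ = ‖A‖ ^ 2 * r := by ring
    · rw [norm_mul]
      calc ‖wd A' b₂ - wd A b₂‖ * ‖wd A b₁‖ ≤ (r * ‖A‖) * ‖A‖ :=
            mul_le_mul (k₂.trans (mul_le_mul_of_nonneg_left a₂ hr0)) a₁ (norm_nonneg _)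
              (by positivity)
        _ = ‖A‖ ^ 2 * r := by ring
  · have key2 : ∀ b : Ω × Ω, ‖b‖ = 1 → ‖wd A' b - wd A b‖ ≤ r * ‖wd A b‖ →
        ‖wd A b‖ ≤ ‖A'‖ := by
      intro b hb hk
      have h7 := norm_wd_le A' b
      rw [hb, mul_one] at h7
      refine le_trans (le_of_eq ?_) h7
      by_cases h0 : wd A b = 0
      · rw [h0, norm_zero, mul_zero, sub_zero] at hk
        rw [h0, norm_zero]
        exact (le_antisymm hk (norm_nonneg _)).symm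
      · refine (norm_eq_of_sub_lt (lt_of_le_of_lt hk ?_)).symm
        exact mul_lt_of_lt_one_left (norm_pos_iff.mpr h0) hμ
    exact (norm_le_of_wd hb₁ hb₂ hb A).trans (max_le (key2 b₁ hb₁ k₁) (key2 b₂ hb₂ k₂))

end Basic

section Expand

variable {Ω : Type u} [NormedField Ω]

lemma fU_spec (S : HS Ω) (X : UV Ω) :
    ∃ t : Ω, t ≠ 0 ∧ S.F X.1 = t • (fU S X).1 ∧ ‖t‖ = ‖S.F X.1‖ := nrm_spec _ _

lemma iter_spec (S : HS Ω) (J : ℕ) (X : UV Ω) :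
    ∃ t : Ω, t ≠ 0 ∧ S.F^[J] X.1 = t • ((fU S)^[J] X).1 ∧ ‖t‖ = ‖S.F^[J] X.1‖ := by
  suffices h : ∃ t : Ω, t ≠ 0 ∧ S.F^[J] X.1 = t • ((fU S)^[J] X).1 by
    obtain ⟨t, ht, h⟩ := h
    refine ⟨t, ht, h, ?_⟩
    rw [h, norm_smul, ((fU S)^[J] X).2, mul_one]
  induction J with
  | zero => exact ⟨1, one_ne_zero, by simp⟩
  | succ J ih =>
    obtain ⟨t, ht, h⟩ := ih
    obtain ⟨t', ht', h', -⟩ := fU_spec S ((fU S)^[J] X)
    refine ⟨t ^ S.d * t', mul_ne_zero (pow_ne_zero _ ht) ht', ?_⟩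
    rw [Function.iterate_succ_apply', Function.iterate_succ_apply', h, S.hom, h', smul_smul]

end Expand

end Pool.Agent.E8helper71.CP.Y405.BI
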